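import Mathlib

set_option autoImplicit false

namespace Pool.Agent.Results.MP_2e8808_al.NotRadical

def a : List Bool → List Bool
  | [] => []
  | x :: w => (!x) :: w

mutual
def b : List Bool → List Bool
  | [] => []
  | false :: w => false :: a w
  | true :: w => true :: c w
def c : List Bool → List Bool
  | [] => []
  | false :: w => false :: a w
  | true :: w => true :: d w
def d : List Bool → List Bool
  | [] => []
  | false :: w => false :: w
  | true :: w => true :: b w
end

theorem a_inv : Function.Involutive a := by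
  rintro (_ | ⟨x, w⟩) <;> simp [a]

theorem bcd_inv (w : List Bool) : b (b w) = w ∧ c (c w) = w ∧ d (d w) = w := by
  induction w with
  | nil => simp [b, c, d]
  | cons x w ih => cases x <;> simp [b, c, d, a_inv w, ih]

def G : Subgroup (Equiv.Perm (List Bool)) :=
  Subgroup.closure {a_inv.toPerm, Function.Involutive.toPerm b fun w => (bcd_inv w).1,
    Function.Involutive.toPerm c fun w => (bcd_inv w).2.1,
    Function.Involutive.toPerm d fun w => (bcd_inv w).2.2}

/-- a word of length `m` that ends with `n` ones -/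
def Z (m n : ℕ) (w : List Bool) : Prop := w.length = m ∧ ∃ v, w = v ++ List.replicate n true

lemma Z_a (m n : ℕ) (w : List Bool) (h : Z m (n + 1) w) : Z m n (a w) := by
  obtain ⟨rfl, _ | ⟨x, v⟩, rfl⟩ := h
  · exact ⟨rfl, [false], rfl⟩
  · exact ⟨rfl, (!x) :: (v ++ [true]), by simp [a, List.replicate_succ]⟩

lemma Z_id (m n : ℕ) (w : List Bool) (h : Z m (n + 1) w) : Z m n w := by
  obtain ⟨rfl, v, rfl⟩ := h
  exact ⟨rfl, v ++ [true], by simp [List.replicate_succ]⟩

lemma Z_cons (m n : ℕ) (x : Bool) (w : List Bool) (h : Z m n w) : Z (m + 1) n (x :: w) := by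
  obtain ⟨rfl, v, rfl⟩ := h
  exact ⟨rfl, x :: v, rfl⟩

lemma rep (n : ℕ) : b (List.replicate n true) = List.replicate n true ∧
    c (List.replicate n true) = List.replicate n true ∧
    d (List.replicate n true) = List.replicate n true := by
  induction n with
  | zero => simp [b, c, d]
  | succ n ih => simp [List.replicate_succ, b, c, d, ih]

lemma Z_bcd (m n : ℕ) (w : List Bool) (h : Z m (n + 1) w) :
    Z m n (b w) ∧ Z m n (c w) ∧ Z m n (d w) := by
  obtain ⟨rfl, v, rfl⟩ := h
  induction v with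
  | nil =>
    rw [List.nil_append, (rep _).1, (rep _).2.1, (rep _).2.2, and_self, and_self]
    exact Z_id _ _ _ ⟨rfl, [], rfl⟩
  | cons x v ih =>
    have h0 : Z _ (n + 1) (v ++ List.replicate (n + 1) true) := ⟨rfl, v, rfl⟩
    cases x <;> simp only [List.cons_append, b, c, d, List.length_cons]
    · exact ⟨Z_cons _ _ _ _ (Z_a _ _ _ h0), Z_cons _ _ _ _ (Z_a _ _ _ h0),
        Z_cons _ _ _ _ (Z_id _ _ _ h0)⟩
    · exact ⟨Z_cons _ _ _ _ ih.2.1, Z_cons _ _ _ _ ih.2.2, Z_cons _ _ _ _ ih.1⟩

lemma G_Z (g : Equiv.Perm (List Bool)) (hg : g ∈ G) : ∃ N, ∀ m n w, Z m (n + N) w → Z m n (g w) := by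
  have h0 : ∀ g ∈ ({a_inv.toPerm, Function.Involutive.toPerm b fun w => (bcd_inv w).1,
      Function.Involutive.toPerm c fun w => (bcd_inv w).2.1,
      Function.Involutive.toPerm d fun w => (bcd_inv w).2.2} : Set (Equiv.Perm (List Bool))),
      g⁻¹ = g ∧ ∃ N, ∀ m n w, Z m (n + N) w → Z m n (g w) := by
    rintro g (rfl | rfl | rfl | rfl)
    · exact ⟨rfl, 1, Z_a⟩
    · exact ⟨rfl, 1, fun m n w h => (Z_bcd m n w h).1⟩
    · exact ⟨rfl, 1, fun m n w h => (Z_bcd m n w h).2.1⟩
    · exact ⟨rfl, 1, fun m n w h => (Z_bcd m n w h).2.2⟩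
  induction hg using Subgroup.closure_induction'' with
  | one => exact ⟨0, fun m n w h => h⟩
  | mem g hg => exact (h0 g hg).2
  | inv_mem g hg => rw [(h0 g hg).1]; exact (h0 g hg).2
  | mul g h _ _ hg hh =>
    obtain ⟨N, hN⟩ := hg
    obtain ⟨M, hM⟩ := hh
    exact ⟨N + M, fun m n w hw => hN _ _ _ (hM _ _ _ (by rwa [add_assoc]))⟩

abbrev K := QuadraticAlgebra (ZMod 2) 1 1
abbrev V := List Bool → K

def om : K := ⟨0, 1⟩

lemma h2 : (2 : K) = 0 := by decide
lemma hom : om * om = om + 1 := by decide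

lemma rel (w : List Bool) : ∀ φ : V, φ (c w) = φ (b w) + φ (d w) + φ w := by
  induction w with
  | nil => intro φ; simp only [b, c, d]; linear_combination (-φ []) * h2
  | cons x w ih =>
    intro φ
    cases x <;> simp only [b, c, d]
    · linear_combination (-φ (false :: w)) * h2
    · have := ih fun u => φ (true :: u)
      linear_combination (-1) * this - (φ (true :: b w) + φ (true :: w)) * h2

def N (β δ : K) (φ : V) : V := fun w => β * (φ (b w) + φ w) + δ * (φ (d w) + φ w)

def L (β δ s : K) (φ : V) : V := fun w =>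
  φ w + N β δ φ w + (N s (s * om) φ w + N s (s * om) φ (a w))

def U (β s : K) (ψ : V) : V
  | [] => 0
  | true :: w => ψ w
  | false :: w => N (s * (om + 1)) s ψ w +
      (β + s) * (N (s * (om + 1)) s ψ w + N (s * (om + 1)) s ψ (a w))

lemma LU0 (β δ s : K) (ψ : V) (w : List Bool) : L β δ s (U β s ψ) (false :: w) = 0 := by
  simp only [L, a, Bool.not_false, N, b, d, U, a_inv w, rel w ψ]
  have := h2
  grind

lemma LU1 (β δ s : K) (ψ : V) (w : List Bool) : L β δ s (U β s ψ) (true :: w) =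
    L (β + s + δ + s * om) (β + s) (s * s * (om + 1)) ψ w := by
  simp only [L, a, Bool.not_true, N, b, d, U, a_inv w, rel w ψ]
  have := h2
  have := hom
  grind

lemma ex (n : ℕ) : ∀ β δ s : K, s ≠ 0 → ∃ φ : V, φ (List.replicate (n + 2) true) ≠ 0 ∧
    ∀ w, Z (n + 2) 2 w → L β δ s φ w = 0 := by
  induction n with
  | zero =>
    intro β δ s hs
    refine ⟨fun w => if w = [true, true] then s else if w = [false, false] then 1 else 0, hs, ?_⟩
    rintro w ⟨h, v, rfl⟩
    obtain rfl : v = [] := by simpa using h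
    simp [L, N, a, b, c, d, List.replicate]
    have := h2
    grind
  | succ n ih =>
    intro β δ s hs
    obtain ⟨ψ, h1, h3⟩ := ih (β + s + δ + s * om) (β + s) (s * s * (om + 1))
      (by obtain ⟨x, y⟩ := s; revert x y; decide)
    refine ⟨U β s ψ, h1, ?_⟩
    rintro w ⟨h, _ | ⟨x, v⟩, rfl⟩
    · simp at h
    · cases x
      · exact LU0 ..
      · exact (LU1 ..).trans (h3 _ ⟨by simpa using h, v, rfl⟩)

def X (φ : V) : V := fun w => φ (b w) + φ (d w) + φ (d (a w))

lemma XL (φ : V) (w : List Bool) : X φ w = (om + 1) * φ w +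
    ((om + 1) * L (om + 1) 0 om φ w + L (om + 1) 0 om φ (a w)) := by
  simp only [X, L, N, a_inv w]
  have := h2
  have := hom
  grind

noncomputable def rho : G →* Module.End (ZMod 2) V where
  toFun g := LinearMap.funLeft (ZMod 2) K ((g⁻¹ : G) : Equiv.Perm (List Bool))
  map_one' := rfl
  map_mul' g h := by rw [mul_inv_rev]; rfl

theorem result :
    Ideal.jacobson (⊥ : Ideal (MonoidAlgebra (ZMod 2) G)) ≠
      RingHom.ker (MonoidAlgebra.lift (ZMod 2) (ZMod 2) G 1) := by
  intro H
  let ga : G := ⟨_, Subgroup.subset_closure (Or.inl rfl)⟩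
  let gb : G := ⟨_, Subgroup.subset_closure (Or.inr (Or.inl rfl))⟩
  let gd : G := ⟨_, Subgroup.subset_closure (Or.inr (Or.inr (Or.inr rfl)))⟩
  let o := MonoidAlgebra.of (ZMod 2) G
  let x := o gb + o gd + o ga * o gd
  have hx : x * x + x ∈ Ideal.jacobson (⊥ : Ideal (MonoidAlgebra (ZMod 2) G)) := by
    rw [H, RingHom.mem_ker]
    simp only [x, o, map_add, map_mul, MonoidAlgebra.lift_of, MonoidHom.one_apply]
    rfl
  obtain ⟨z, hz⟩ := Ideal.mem_jacobson_iff.1 hx 1
  rw [mul_one, Ideal.mem_bot, sub_eq_zero, ← mul_add_one] at hz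
  let r := MonoidAlgebra.lift (ZMod 2) (Module.End (ZMod 2) V) G rho
  have k1 : ∀ s : MonoidAlgebra (ZMod 2) G, ∃ M, ∀ m w (ψ : V), Z m (5 + M) w →
      (∀ u, Z m 5 u → ψ u = 0) → r s ψ w = 0 := by
    intro s
    induction s using MonoidAlgebra.induction_linear with
    | zero => exact ⟨0, fun m w ψ _ _ => by simp⟩
    | add s s' h h' =>
      obtain ⟨M, h⟩ := h
      obtain ⟨M', h'⟩ := h'
      have mono : ∀ m n j w, Z m (n + j) w → Z m n w := fun m n j w hw => by
        induction j with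
        | zero => exact hw
        | succ j ih => exact ih (Z_id _ _ _ hw)
      exact ⟨M + M', fun m w ψ hw hψ => by
        rw [map_add, LinearMap.add_apply, Pi.add_apply,
          h m w ψ (mono _ _ M' _ (by rwa [add_assoc])) hψ,
          h' m w ψ (mono _ _ M _ (by rwa [add_assoc, add_comm M'])) hψ, add_zero]⟩
    | single g t =>
      obtain ⟨M, hM⟩ := G_Z _ (g⁻¹).2
      refine ⟨M, fun m w ψ hw hψ => ?_⟩
      rw [MonoidAlgebra.lift_single]
      change t • ψ (((g⁻¹ : G) : Equiv.Perm (List Bool)) w) = 0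
      rw [hψ _ (hM _ _ _ hw), smul_zero]
  obtain ⟨M, hM⟩ := k1 z
  obtain ⟨φ, h1, h3⟩ := ex (3 + M) (om + 1) 0 om (by decide)
  have k2 : ∀ ψ, r x ψ = X ψ := fun ψ => by
    simp only [r, x, o, map_add, map_mul, MonoidAlgebra.lift_of]
    rfl
  have k3 := hM (3 + M + 2) (List.replicate (3 + M + 2) true) (r (x * x + x + 1) φ)
    ⟨by simp, [], by rw [List.nil_append]; congr 1; omega⟩ fun u hu => by
      have k4 : ∀ u, Z (3 + M + 2) 3 u → X φ u = (om + 1) * φ u := fun u hu => by
        rw [XL, h3 _ (Z_id _ _ _ hu), h3 _ (Z_a _ _ _ hu)]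
        ring
      have k5 := k4 _ (Z_id _ _ _ (Z_id _ _ _ hu))
      have k6 := k4 _ (Z_bcd _ _ _ (Z_id _ _ _ hu)).1
      have k7 := k4 _ (Z_bcd _ _ _ (Z_id _ _ _ hu)).2.2
      have k8 := k4 _ (Z_bcd _ _ _ (Z_a _ _ _ hu)).2.2
      have k9 : X φ u = φ (b u) + φ (d u) + φ (d (a u)) := rfl
      simp only [map_add, map_mul, map_one, LinearMap.add_apply, Module.End.mul_apply,
        Module.End.one_apply, Pi.add_apply, k2]
      rw [show X (X φ) u = X φ (b u) + X φ (d u) + X φ (d (a u)) from rfl]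
      have := h2
      have := hom
      grind
  rw [← Module.End.mul_apply, ← map_mul, hz, map_one, Module.End.one_apply] at k3
  exact h1 k3

end Pool.Agent.Results.MP_2e8808_al.NotRadical
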